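import Pool.Agent.H78.GX.H78.GS.TF3

/-!
# Theorem (G), section 3a, group F: the sums of the phases under small shifts
-/

set_option autoImplicit false

open Finset Pool.Agent.H6.N4D Pool.Agent.H78.GX.H6.N4D Pool.Agent.H78.GX Pool.Agent.H78.GX.H78.GS

namespace Pool.Agent.H78.GX.H38.GS3

/-- at most one sheet lies near a fraction -/
lemma near_unique {S : Par} {θ : ℤ → ℕ → ℝ} {F : ℤ → Finset ℕ} {T y : ℝ} {t : ℤ}
    (hr : 0 < S.rho) (ht : t ∈ S.I) (hSep : Sep S θ F) {i j : ℕ} (hi : i ∈ F t) (hj : j ∈ F t)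
    (h1 : nd (fh S θ T t i - y) ≤ 1 / (4 * (S.rho * S.x t)))
    (h2 : nd (fh S θ T t j - y) ≤ 1 / (4 * (S.rho * S.x t))) : i = j := by
  by_contra hij
  have h3 := hSep t ht i hi j hj hij
  have h4 : θ t i - θ t j = (fh S θ T t i - y) - (fh S θ T t j - y) := by
    unfold fh; ring
  have hrx : 0 < S.rho * S.x t := mul_pos hr (Par.x_pos t)
  have h5 := nd_sub_le (fh S θ T t i - y) (fh S θ T t j - y)
  rw [← h4] at h5
  have h6 : 1 / (4 * (S.rho * S.x t)) = 1 / (S.rho * S.x t) / 4 := by field_simp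
  have h7 : 0 < 1 / (S.rho * S.x t) := by positivity
  rw [h6] at h1 h2
  linarith

/-- the sum of the phases, if one sheet lies near the fraction -/
lemma FA_one {S : Par} {θ φ : ℤ → ℕ → ℝ} {F : ℤ → Finset ℕ} {T : ℝ} {b a : ℕ} {t : ℤ} {j : ℕ}
    (hr : 0 < S.rho) (ht : t ∈ S.I) (hSep : Sep S θ F) (hj : j ∈ F t)
    (h : nd (fh S θ T t j - (a : ℝ) / b) ≤ 1 / (4 * (S.rho * S.x t))) :
    FA S θ φ F T b a t = ee (ps S φ T b a t j) := by
  classical
  unfold FA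
  have h1 : (F t).filter (fun j => nd (fh S θ T t j - (a : ℝ) / b) ≤
      1 / (4 * (S.rho * S.x t))) = {j} := by
    ext i
    rw [mem_filter, mem_singleton]
    constructor
    · rintro ⟨hi, h2⟩
      exact near_unique hr ht hSep hi hj h2 h
    · rintro rfl
      exact ⟨hj, h⟩
  have h2 : (∑ j ∈ (F t).filter (fun j => nd (fh S θ T t j - (a : ℝ) / b) ≤
      1 / (4 * (S.rho * S.x t))),
    ee (φ t j - (a : ℝ) / b * S.n t - T * Real.log (S.n t) + T * (S.h * t))) =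
      ee (ps S φ T b a t j) := by
    rw [h1, sum_singleton]
    rfl
  convert h2 using 2

/-- the sum of the phases, if no sheet lies near the fraction -/
lemma FA_zero {S : Par} {θ φ : ℤ → ℕ → ℝ} {F : ℤ → Finset ℕ} {T : ℝ} {b a : ℕ} {t : ℤ}
    (h : ∀ j ∈ F t, ¬ nd (fh S θ T t j - (a : ℝ) / b) ≤ 1 / (4 * (S.rho * S.x t))) :
    FA S θ φ F T b a t = 0 := by
  classical
  unfold FA
  apply sum_eq_zero
  intro j hj
  exact absurd (mem_filter.1 hj).2 (h j (mem_filter.1 hj).1)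

theorem pf_FAS (hRAS : T_RAS) (hPHS : T_PHS) (hLCS : T_LCS) (hSIZ : T_SIZ) : T_FAS := by
  intro K b₀ ζ hK hζ
  obtain ⟨X₁, hP⟩ := hPHS K (ζ / 8) hK (by positivity)
  obtain ⟨X₂, hL⟩ := hLCS K hK
  obtain ⟨X₃, hS⟩ := hSIZ
  obtain ⟨X₄, hX4⟩ := LL_large ((b₀ : ℝ) ^ 2)
  refine ⟨max (max X₁ X₂) (max X₃ X₄), ?_⟩
  intro S e₀ e₁ ν T θ φ F w b a t hOk hSK hX he0 he01 he02 he1 he11 he12 hν hν1 hT ht htw hw
    hSep hb hbb hBij hFr
  have hXa : X₁ ≤ S.X := ((le_max_left _ _).trans (le_max_left _ _)).trans hX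
  have hXb : X₂ ≤ S.X := ((le_max_right _ _).trans (le_max_left _ _)).trans hX
  have hXc : X₃ ≤ S.X := ((le_max_left _ _).trans (le_max_right _ _)).trans hX
  have hXd : X₄ ≤ S.X := ((le_max_right _ _).trans (le_max_right _ _)).trans hX
  obtain ⟨-, hP100, -, -, -, -, -, -, hI, -⟩ := hS S hOk hXc
  have hr := hOk.hr0
  -- sizes
  have hbig : ∀ u ∈ S.I, (b₀ : ℝ) ^ 2 < S.rho * S.x u := by
    intro u hu
    have h1 := (hI u hu).1
    have h2 : (b₀ : ℝ) ^ 2 < S.P := by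
      have h3 : (b₀ : ℝ) ^ 2 ≤ S.L := hX4 S.X hXd
      have h4 : S.L + 1 ≤ Real.exp S.L := Real.add_one_le_exp _
      have h5 : Real.exp S.L = S.P := rfl
      linarith
    have h3 : S.P ≤ S.P ^ (100 * S.K) :=
      le_self_pow₀ (by linarith) (by rw [hSK]; omega)
    linarith
  have hb0 : (0 : ℝ) < (b₀ : ℝ) ^ 2 := by
    have : 0 < b₀ := lt_of_lt_of_le hb hbb
    positivity
  have hinv : ∀ u ∈ S.I, 1 / (S.rho * S.x u) < 1 / (b₀ : ℝ) ^ 2 := by
    intro u hu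
    exact one_div_lt_one_div_of_lt hb0 (hbig u hu)
  have hpos : ∀ u, 0 < 1 / (S.rho * S.x u) := by
    intro u
    have := mul_pos hr (Par.x_pos (S := S) u)
    positivity
  have hq4 : ∀ u, 1 / (4 * (S.rho * S.x u)) = 1 / (S.rho * S.x u) / 4 := by
    intro u
    have := mul_pos hr (Par.x_pos (S := S) u)
    field_simp
  have hq8 : ∀ u, 1 / (8 * (S.rho * S.x u)) = 1 / (S.rho * S.x u) / 8 := by
    intro u
    have := mul_pos hr (Par.x_pos (S := S) u)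
    field_simp
  -- the bound from `At`
  have hAt : ν * e₁ / (S.rho * S.x t) ≤ 1 / (S.rho * S.x t) / 32 := by
    have h1 : ν * e₁ ≤ 1 / 32 := by
      calc ν * e₁ ≤ 1 * e₁ := mul_le_mul_of_nonneg_right hν1 he1.le
        _ ≤ 1 / 32 := by linarith
    have h2 := mul_pos hr (Par.x_pos (S := S) t)
    calc ν * e₁ / (S.rho * S.x t) ≤ 1 / 32 / (S.rho * S.x t) := by gcongr
      _ = 1 / (S.rho * S.x t) / 32 := by ring
  -- change of the fraction
  have hchg : ∀ (y : ℝ) (b₁ a₁ : ℕ), 1 ≤ b₁ → b₁ ≤ b₀ →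
      nd (y - (a₁ : ℝ) / b₁) + nd (y - (a : ℝ) / b) < 1 / (b₀ : ℝ) ^ 2 →
      ∃ k : ℤ, (a₁ : ℝ) / b₁ - (a : ℝ) / b = k := by
    intro y b₁ a₁ h1 h2 h3
    apply hRAS b₀ b₁ b a₁ a h1 h2 hb hbb
    have h4 := nd_sub_le (y - (a : ℝ) / b) (y - (a₁ : ℝ) / b₁)
    have h5 : y - (a : ℝ) / b - (y - (a₁ : ℝ) / b₁) = (a₁ : ℝ) / b₁ - (a : ℝ) / b := by ring
    rw [h5] at h4
    linarith
  have hmov : ∀ (y : ℝ) (b₁ a₁ : ℕ) (k : ℤ), (a₁ : ℝ) / b₁ - (a : ℝ) / b = k →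
      nd (y - (a : ℝ) / b) = nd (y - (a₁ : ℝ) / b₁) := by
    intro y b₁ a₁ k hk
    have h1 : y - (a : ℝ) / b = y - (a₁ : ℝ) / b₁ + k := by rw [← hk]; ring
    rw [h1, nd_add_int]
  by_cases hne : ∃ j ∈ F t, nd (fh S θ T t j - (a : ℝ) / b) ≤ 1 / (4 * (S.rho * S.x t))
  · obtain ⟨j, hj, hjn⟩ := hne
    obtain ⟨b₁, a₁, hb1, hb1b, hA1⟩ := hFr j hj
    have hA1' : nd (fh S θ T t j - (a₁ : ℝ) / b₁) ≤ ν * e₁ / (S.rho * S.x t) := hA1
    obtain ⟨k, hk⟩ := hchg (fh S θ T t j) b₁ a₁ hb1 hb1b (by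
      have h1 := hinv t ht
      have h2 := hpos t
      have h3 := hq4 t
      linarith [hAt, hA1', hjn])
    have hAj : At S e₁ ν θ T b a t j := by
      show nd (fh S θ T t j - (a : ℝ) / b) ≤ ν * e₁ / (S.rho * S.x t)
      rw [hmov _ _ _ _ hk]
      exact hA1'
    obtain ⟨i, ⟨hi, hRi⟩, -⟩ := hBij.1 j hj
    have h1 := hL S e₀ e₁ ν T θ φ w b a t j i hOk hSK hXb he0 he02 he1 he12 hν hν1 hT ht htw hw
      hb hRi hAj
    have h2 : nd (fh S θ T (t + w) i - (a : ℝ) / b) ≤ 1 / (4 * (S.rho * S.x (t + w))) := by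
      have h3 := hpos (t + w)
      rw [hq4]
      rw [hq8] at h1
      linarith
    rw [FA_one hr ht hSep hj hjn, FA_one hr htw hSep hi h2]
    have h3 := hP S e₀ e₁ ν T θ φ w b a t j i hOk hSK hXa he0 (by linarith) he1 (by linarith)
      (by linarith) hν hν1 hT ht htw hw hb hRi hAj
    refine (norm_ee_sub_le _ _).trans ?_
    have hpi := Real.pi_le_four
    have hpi0 := Real.pi_pos
    calc 2 * Real.pi * nd (ps S φ T b a (t + w) i - ps S φ T b a t j)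
        ≤ 2 * Real.pi * (ζ / 8) := mul_le_mul_of_nonneg_left h3 (by positivity)
      _ ≤ 2 * 4 * (ζ / 8) := by
          apply mul_le_mul_of_nonneg_right _ (by positivity)
          linarith
      _ = ζ := by ring
  · have h0 : ∀ j ∈ F t, ¬ nd (fh S θ T t j - (a : ℝ) / b) ≤ 1 / (4 * (S.rho * S.x t)) := by
      intro j hj hn
      exact hne ⟨j, hj, hn⟩
    have h0' : ∀ i ∈ F (t + w), ¬ nd (fh S θ T (t + w) i - (a : ℝ) / b) ≤
        1 / (4 * (S.rho * S.x (t + w))) := by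
      intro i hi hn
      obtain ⟨j, ⟨hj, hRj⟩, -⟩ := hBij.2 i hi
      obtain ⟨b₁, a₁, hb1, hb1b, hA1⟩ := hFr j hj
      have h1 := hL S e₀ e₁ ν T θ φ w b₁ a₁ t j i hOk hSK hXb he0 he02 he1 he12 hν hν1 hT ht
        htw hw hb1 hRj hA1
      obtain ⟨k, hk⟩ := hchg (fh S θ T (t + w) i) b₁ a₁ hb1 hb1b (by
        have h2 := hinv (t + w) htw
        have h3 := hpos (t + w)
        rw [hq8] at h1
        rw [hq4] at hn
        linarith)
      apply h0 j hj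
      rw [hmov _ _ _ _ hk, hq4]
      have hA1' : nd (fh S θ T t j - (a₁ : ℝ) / b₁) ≤ ν * e₁ / (S.rho * S.x t) := hA1
      have h4 := hpos t
      linarith [hAt]
    rw [FA_zero h0, FA_zero h0', sub_zero, norm_zero]
    exact hζ.le

end Pool.Agent.H78.GX.H38.GS3
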