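import Pool.Agent.H78.GX.H78.GS.TF3

/-!
# Theorem (G), section 3a, group F: the twisted sums along an edge
-/

set_option autoImplicit false

open Finset Pool.Agent.H6.N4D Pool.Agent.H78.GX.H6.N4D Pool.Agent.H78.GX Pool.Agent.H78.GX.H78.GS

namespace Pool.Agent.H78.GX.H38.GS3

theorem pf_HCE : T_HCE := by
  intro S T ζ θ φ F p b t t' χ hb hpb hFA
  set σ : ℕ → ℕ := fun a => (p * a) % b with hσ
  have hb0 : 0 < b := hb
  have hinj : Set.InjOn σ (range b : Finset ℕ) := by
    intro x hx y hy hxy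
    rw [mem_coe, mem_range] at hx hy
    have h1 : p * x ≡ p * y [MOD b] := hxy
    have h2 : x ≡ y [MOD b] := Nat.ModEq.cancel_left_of_coprime (by rwa [Nat.coprime_comm] at hpb) h1
    exact Nat.ModEq.eq_of_lt_of_lt h2 hx hy
  have himg : (range b).image σ = range b := by
    apply eq_of_subset_of_card_le
    · intro x hx
      obtain ⟨a, _, rfl⟩ := mem_image.1 hx
      exact mem_range.2 (Nat.mod_lt _ hb0)
    · rw [card_image_of_injOn hinj]
  have h1 : HC S θ φ F T b χ t' =
      ∑ a ∈ range b, χ (p : ZMod b) * χ (a : ZMod b) * FA S θ φ F T b (σ a) t' := by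
    unfold HC
    rw [← himg, sum_image hinj, himg]
    apply sum_congr rfl
    intro a _
    have h2 : ((σ a : ℕ) : ZMod b) = (p : ZMod b) * (a : ZMod b) := by
      rw [hσ]
      simp only [ZMod.natCast_mod]
      push_cast
      rfl
    rw [h2, map_mul]
  have h3 : HC S θ φ F T b χ t' + χ (p : ZMod b) * HC S θ φ F T b χ t =
      ∑ a ∈ range b, χ (p : ZMod b) * χ (a : ZMod b) *
        (FA S θ φ F T b (σ a) t' + FA S θ φ F T b a t) := by
    rw [h1]
    unfold HC
    rw [mul_sum, ← sum_add_distrib]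
    apply sum_congr rfl
    intro a _
    ring
  rw [h3]
  refine (norm_sum_le _ _).trans ?_
  have h4 : ∀ a ∈ range b, ‖χ (p : ZMod b) * χ (a : ZMod b) *
      (FA S θ φ F T b (σ a) t' + FA S θ φ F T b a t)‖ ≤ ζ := by
    intro a ha
    have ha' := mem_range.1 ha
    have h5 := hFA a (σ a) ha' (Nat.mod_lt _ hb0) (Nat.mod_modEq _ _).symm
    have h6 := DirichletCharacter.norm_le_one χ (p : ZMod b)
    have h7 := DirichletCharacter.norm_le_one χ (a : ZMod b)
    rw [norm_mul, norm_mul]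
    have h8 : ‖χ (p : ZMod b)‖ * ‖χ (a : ZMod b)‖ ≤ 1 := mul_le_one₀ h6 (norm_nonneg _) h7
    calc _ ≤ 1 * ‖FA S θ φ F T b (σ a) t' + FA S θ φ F T b a t‖ :=
          mul_le_mul_of_nonneg_right h8 (norm_nonneg _)
      _ ≤ ζ := by rw [one_mul]; exact h5
  refine (sum_le_sum h4).trans ?_
  rw [sum_const, card_range, nsmul_eq_mul]

end Pool.Agent.H78.GX.H38.GS3
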